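import Pool.Agent.Helper28_TP.DyS
import Pool.Agent.Helper28_TP.Inst

/-!
# TPM, module LEB: a uniform point in every unit cell is Lebesgue measure
-/

set_option autoImplicit false

namespace Pool.Agent.TP.H39

open MeasureTheory ProbabilityTheory Pool.Agent.TP

/-- the cell with corner `z` -/
def cellz {k : ℕ} (z : Pt k) : Set (Sp k) :=
  Set.univ.pi fun a => Set.Ico (z a : ℝ) (z a + 1)

theorem mem_cellz {k : ℕ} (z : Pt k) (x : Sp k) : x ∈ cellz z ↔ ∀ a, ⌊x a⌋ = z a := by
  simp only [cellz, Set.mem_univ_pi, Set.mem_Ico, Int.floor_eq_iff]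

theorem unif_eq (k : ℕ) : unif k = (volume : Measure (Sp k)).restrict (cellz (0 : Pt k)) := by
  have h : (cellz (0 : Pt k)) = Set.univ.pi fun _ : Fin (k + 2) => Set.Ico (0 : ℝ) 1 := by
    unfold cellz
    simp
  rw [h, volume_pi, Measure.restrict_pi_pi]
  rfl

theorem leb : LebStmt := by
  intro k s f hf
  have hF : Measurable fun x : Sp k => ∫⁻ y, f (x, y) ∂(walkLaw k s) := hf.lintegral_prod_right'
  set F : Sp k → ENNReal := fun x => ∫⁻ y, f (x, y) ∂(walkLaw k s) with hFdef
  have hms : ∀ z : Pt k, MeasurableSet (cellz z) := fun z =>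
    MeasurableSet.univ_pi fun a => measurableSet_Ico
  have h1 : ∀ z : Pt k, ∫⁻ m, f (fun a => (z a : ℝ) + m.1 a, m.2) ∂(markLaw k s)
      = ∫⁻ x in cellz z, F x := by
    intro z
    have hg : Measurable fun m : Mk k => f (fun a => (z a : ℝ) + m.1 a, m.2) := by
      refine hf.comp ?_
      fun_prop
    unfold markLaw
    rw [lintegral_prod _ hg.aemeasurable, unif_eq]
    set w : Sp k := fun a => (z a : ℝ) with hw
    have hmp : MeasurePreserving (fun x : Sp k => w + x) volume volume :=
      measurePreserving_add_left volume w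
    have h2 := hmp.setLIntegral_comp_preimage (hms z) hF
    have h3 : (fun x : Sp k => w + x) ⁻¹' (cellz z) = cellz (0 : Pt k) := by
      ext x
      simp only [Set.mem_preimage, cellz, Set.mem_univ_pi, Set.mem_Ico, Pi.add_apply, hw,
        Pi.zero_apply, Int.cast_zero, zero_add]
      refine forall_congr' fun a => ?_
      constructor
      · rintro ⟨h, h'⟩
        exact ⟨by linarith, by linarith⟩
      · rintro ⟨h, h'⟩
        exact ⟨by linarith, by linarith⟩
    rw [h3] at h2
    exact h2
  simp only [h1]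
  have hd : Pairwise (Function.onFun Disjoint (cellz (k := k))) := by
    intro z z' hzz
    simp only [Function.onFun]
    rw [Set.disjoint_left]
    intro x hx hx'
    apply hzz
    funext a
    rw [← (mem_cellz z x).1 hx a, (mem_cellz z' x).1 hx' a]
  have hu : (⋃ z : Pt k, cellz z) = Set.univ := by
    ext x
    simp only [Set.mem_iUnion, Set.mem_univ, iff_true]
    exact ⟨fun a => ⌊x a⌋, (mem_cellz _ x).2 fun a => rfl⟩
  rw [← lintegral_iUnion hms hd, hu, Measure.restrict_univ]

end Pool.Agent.TP.H39
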