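import Pool.Agent.Helper28_TP.DyS

/-!
# TPM, module VOI: void probabilities determine the law of a random subset of a finite set
-/

set_option autoImplicit false

namespace Pool.Agent.TP.H39

open MeasureTheory ProbabilityTheory Pool.Agent.TP

theorem voi : VoiStmt := by
  classical
  intro Ω _ P _ α _ V q O _ hO hm hv E
  -- the cylinder events
  have hms : ∀ T B : Finset α, T ⊆ V → B ⊆ V →
      MeasurableSet {ω | T ⊆ O ω ∧ Disjoint B (O ω)} := by
    intro T B hT hB
    have h1 : {ω | T ⊆ O ω ∧ Disjoint B (O ω)} =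
        (⋂ a ∈ T, {ω | a ∈ O ω}) ∩ ⋂ a ∈ B, {ω | a ∈ O ω}ᶜ := by
      ext ω
      simp only [Set.mem_ofPred_eq, Set.mem_inter_iff, Set.mem_iInter, Set.mem_compl_iff,
        Finset.disjoint_left]
      constructor
      · intro h
        exact ⟨fun a ha => h.1 ha, fun a ha => h.2 ha⟩
      · intro h
        refine ⟨fun a ha => h.1 a ha, ?_⟩
        intro a ha
        exact h.2 ha
    rw [h1]
    exact (Finset.measurableSet_biInter T fun a ha => hm a (hT ha)).inter
      (Finset.measurableSet_biInter B fun a ha => (hm a (hB ha)).compl)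
  have key : ∀ T : Finset α, T ⊆ V → ∀ B : Finset α, B ⊆ V → Disjoint T B →
      P.real {ω | T ⊆ O ω ∧ Disjoint B (O ω)} = (∏ a ∈ T, q a) * ∏ a ∈ B, (1 - q a) := by
    intro T
    induction T using Finset.induction_on with
    | empty =>
      intro _ B hB _
      rw [Finset.prod_empty, one_mul, ← hv B hB]
      congr 1
      ext ω
      simp
    | insert a T ha ih =>
      intro hT B hB hd
      rw [Finset.insert_subset_iff] at hT
      rw [Finset.disjoint_insert_left] at hd
      have h1 := ih hT.2 B hB hd.2
      have h2 := ih hT.2 (insert a B) (Finset.insert_subset hT.1 hB) (by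
        rw [Finset.disjoint_insert_right]
        exact ⟨ha, hd.2⟩)
      have h3 : {ω | T ⊆ O ω ∧ Disjoint B (O ω)} =
          {ω | insert a T ⊆ O ω ∧ Disjoint B (O ω)} ∪
            {ω | T ⊆ O ω ∧ Disjoint (insert a B) (O ω)} := by
        ext ω
        simp only [Set.mem_ofPred_eq, Set.mem_union, Finset.insert_subset_iff,
          Finset.disjoint_insert_left]
        tauto
      have h4 : Disjoint {ω | insert a T ⊆ O ω ∧ Disjoint B (O ω)}
          {ω | T ⊆ O ω ∧ Disjoint (insert a B) (O ω)} := by
        rw [Set.disjoint_left]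
        intro ω h5 h6
        simp only [Set.mem_ofPred_eq, Finset.insert_subset_iff,
          Finset.disjoint_insert_left] at h5 h6
        exact h6.2.1 h5.1.1
      rw [h3, measureReal_union h4 (hms T (insert a B) hT.2 (Finset.insert_subset hT.1 hB))] at h1
      rw [h2, Finset.prod_insert hd.1] at h1
      rw [Finset.prod_insert ha]
      linarith
  have hpt : ∀ A ⊆ V, P.real {ω | O ω = A} = wt V q A := by
    intro A hA
    have h1 : {ω | O ω = A} = {ω | A ⊆ O ω ∧ Disjoint (V \ A) (O ω)} := by
      ext ω
      simp only [Set.mem_ofPred_eq]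
      constructor
      · intro h
        rw [h]
        exact ⟨Finset.Subset.refl A, Finset.sdiff_disjoint⟩
      · rintro ⟨h2, h3⟩
        refine Finset.Subset.antisymm ?_ h2
        intro a ha
        by_contra h4
        exact (Finset.disjoint_left.1 h3) (Finset.mem_sdiff.2 ⟨hO ω ha, h4⟩) ha
    rw [h1, key A hA (V \ A) Finset.sdiff_subset Finset.disjoint_sdiff]
    unfold wt
    rw [Finset.prod_ite, Finset.filter_mem_eq_inter, Finset.inter_eq_right.2 hA,
      ← Finset.sdiff_eq_filter]
  have hmp : ∀ A ⊆ V, MeasurableSet {ω | O ω = A} := by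
    intro A hA
    have h1 : {ω | O ω = A} = {ω | A ⊆ O ω ∧ Disjoint (V \ A) (O ω)} := by
      ext ω
      simp only [Set.mem_ofPred_eq]
      constructor
      · intro h
        rw [h]
        exact ⟨Finset.Subset.refl A, Finset.sdiff_disjoint⟩
      · rintro ⟨h2, h3⟩
        refine Finset.Subset.antisymm ?_ h2
        intro a ha
        by_contra h4
        exact (Finset.disjoint_left.1 h3) (Finset.mem_sdiff.2 ⟨hO ω ha, h4⟩) ha
    rw [h1]
    exact hms A (V \ A) hA Finset.sdiff_subset
  have hE : {ω | E (O ω)} = ⋃ A ∈ V.powerset.filter E, {ω | O ω = A} := by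
    ext ω
    simp only [Set.mem_ofPred_eq, Set.mem_iUnion, Finset.mem_filter, Finset.mem_powerset,
      exists_prop]
    constructor
    · intro h
      exact ⟨O ω, ⟨hO ω, h⟩, rfl⟩
    · rintro ⟨A, ⟨_, h2⟩, rfl⟩
      exact h2
  rw [hE, measureReal_biUnion_finset]
  · unfold PS EX
    rw [Finset.sum_filter]
    refine Finset.sum_congr rfl fun A hA => ?_
    have hA' := Finset.mem_powerset.1 hA
    by_cases h : E A
    · simp only [if_pos h, mul_one]
      exact hpt A hA'
    · simp only [if_neg h, mul_zero]
  · intro A _ B _ hAB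
    simp only [Function.onFun]
    rw [Set.disjoint_left]
    intro ω h1 h2
    exact hAB (h1.symm.trans h2)
  · intro A hA
    exact hmp A (Finset.mem_powerset.1 (Finset.mem_filter.1 hA).1)

end Pool.Agent.TP.H39
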